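import Pool.Agent.D0H27.Abel.Engel

set_option autoImplicit false
open N6ef48c04

namespace Pool.Agent.Results.MP_964892_co.AbelianSymmetries

/-!
# The moves along a commutative group of automorphisms cost at most `2 √n` cops

Let a commutative group `A` act on a connected graph `G` with `n` vertices by automorphisms, and let
`F` be an `A`-invariant subgraph which contains all the edges between different orbits of `A`. We
show `c(G) ≤ q + 2 √n` if `q` cops win on every component of `F`. There is no condition on the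
number of orbits, on their lengths, or on the size of the components. More generally `F` need only
contain one edge from `x` to the orbit of `y` for every edge `xy` of `G`; then
`c(G) ≤ q + 2 √(d n)` if every vertex has its neighbours in `G - F` in at most `d` orbits. If a group
`B` of automorphisms commutes with `A`, only classes of moves modulo `B` count; for a transitive
group `B` the bound is `q + 2 √n` for all `d`.

For `F` without edges and a regular action this contains the known bound `O(√n)` for the Cayley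
graphs of commutative groups. For Cayley graphs of nonabelian groups with a commutative normal
subgroup `N` it shows that the generators in `N` cost at most `2 √n` cops, and if `N` is central,
then all generators, except for one in every coset of `N`, cost at most `2 √n` cops. Meyniel's bound
holds with the constant `8` for
* the iterated semidirect products `N₁ ⋊ (N₂ ⋊ (N₃ ⋊ ...))` of commutative groups, if every generator
  lies in one of the factors; examples: unitriangular or triangular matrices over a finite field and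
  any generating set of elementary and diagonal matrices, the affine groups with generating sets of
  translations and multiplications, iterated wreath products of commutative groups;
* all groups in which every element commutes with its conjugates (all groups of nilpotency class at
  most two, all groups of exponent three), for the irredundant generating sets, see (5);
* more general chains of generating sets, see (3);
and with another constant for (4) all finite groups `Γ` with a commutative normal subgroup `N` and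
`S ⊆ N ∪ tN ∪ t⁻¹N` for some `t ∈ S`, for instance lamplighter groups over commutative groups, and
all Cayley graphs of groups with a commutative subgroup of index two.

Proof idea. A cop at `D x` (`D ∈ A`, robber at `x`) keeps his difference `D` by imitation. A move of
the robber outside `F` has a class (a pair of vertices up to `B`). Let `a ∈ A`. When the robber makes
a move of a class in a certain set `M a`, a cop with `D = a ^ j` can answer such that his new
difference is `a ^ (j - 1)`. So if the differences of the cops are only considered modulo a subgroup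
`W` of `A`, one cop can exclude all the classes in `M a`: as long as the robber avoids `M a` the
other cops use their strategy against the remaining classes, and this cop wins (modulo `W`) if the
robber makes too many moves in `M a`. He gets a difference of the form `a ^ j` by the same strategy
modulo the larger subgroup generated by `W` and `a`. A double counting shows that some `a` not in
`W` satisfies `|M a ∩ E| ≥ |E| ^ 2 / N` for the set `E` of the remaining classes, where `N` bounds the
number of all classes; so `2 √N` steps suffice. If no class remains the robber moves in a component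
of `F`, up to `W`, and `q` cops suffice.
-/

/-- The undirected Cayley graph on `Γ` with connection set `S` (it may be disconnected). -/
def cayley {Γ : Type*} [Group Γ] (S : Set Γ) : SimpleGraph Γ where
  Adj x y := x ≠ y ∧ (x⁻¹ * y ∈ S ∨ y⁻¹ * x ∈ S)
  symm := ⟨fun _ _ h => ⟨h.1.symm, h.2.symm⟩⟩
  loopless := ⟨fun _ h => h.1 rfl⟩

/-- The (connected) undirected Cayley graph of the subgroup `⟨S⟩` generated by `S` with connection
set `S`. -/
def Cay {Γ : Type*} [Group Γ] (S : Set Γ) : SimpleGraph (Subgroup.closure S : Set Γ) :=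
  (cayley S).induce (Subgroup.closure S : Set Γ)

/-- the cosets of `N` which contain an element of `S ∪ S⁻¹` outside `T ∪ T⁻¹` -/
def cosets {Γ : Type*} [Group Γ] (N : Subgroup Γ) (S T : Set Γ) : Set (Γ ⧸ N) :=
  (fun s : Γ => (s : Γ ⧸ N)) '' {s | (s ∈ S ∨ s⁻¹ ∈ S) ∧ s ∉ T ∧ s⁻¹ ∉ T}

/-- `T ⊆ S`, and there is a commutative subgroup `N` of `⟨S⟩`, normalised by `⟨S⟩`, such that every
element of `S` outside `T` lies in a coset `t N`, `t ∈ T ∪ T⁻¹ ∪ {1}`, and
`|⟨S⟩ : C(N)| * c * |N| ≤ δ * |⟨S⟩|`, where `C(N)` is the centraliser of `N` (in `⟨S⟩`) and `c` the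
number of the cosets of `N` which contain an element of `S ∪ S⁻¹` outside `T ∪ T⁻¹`. This
inequality holds with `δ = c`, and with `δ = 1` if `N` is central in `⟨S⟩`, see (2c). -/
def Layer {Γ : Type*} [Group Γ] (δ : ℝ) (S T : Set Γ) : Prop :=
  T ⊆ S ∧ ∃ N : Subgroup Γ, N ≤ Subgroup.closure S ∧
    (∀ g ∈ Subgroup.closure S, ∀ a ∈ N, g * a * g⁻¹ ∈ N) ∧
    (∀ a ∈ N, ∀ b ∈ N, a * b = b * a) ∧
    (∀ s ∈ S, s ∉ T → ∃ t, (t = 1 ∨ t ∈ T ∨ t⁻¹ ∈ T) ∧ t⁻¹ * s ∈ N) ∧
    (((Subgroup.centralizer (N : Set Γ)).relIndex (Subgroup.closure S) * (cosets N S T).ncard *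
      Nat.card N : ℕ) : ℝ) ≤ δ * Nat.card (Subgroup.closure S)

open Classical in
/-- The number of the `i < k` with `⟨S (i + 1)⟩ = ⟨S i⟩`. -/
noncomputable def repetitions {Γ : Type*} [Group Γ] (S : ℕ → Set Γ) (k : ℕ) : ℕ :=
  ((Finset.range k).filter fun i =>
    Subgroup.closure (S (i + 1)) = Subgroup.closure (S i)).card

/-- The number of the conjugates of `s` and `s⁻¹` by the elements of `H`. -/
noncomputable def numConj {Γ : Type*} [Group Γ] (H : Subgroup Γ) (s : Γ) : ℕ :=
  ({u | ∃ g ∈ H, u = g * s * g⁻¹ ∨ u = g * s⁻¹ * g⁻¹} : Set Γ).ncard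

theorem layer_iff {Γ : Type*} [Group Γ] (δ : ℝ) (S T : Set Γ) :
    Layer δ S T ↔ Pool.Agent.D0H27.Abel.Layer δ S T := Iff.rfl

theorem cay_eq {Γ : Type*} [Group Γ] (S : Set Γ) : Cay S = Pool.Agent.D0H27.Abel.Cay S := rfl

theorem repetitions_eq {Γ : Type*} [Group Γ] (S : ℕ → Set Γ) (k : ℕ) :
    repetitions S k = Pool.Agent.D0H27.Abel.reps S k := rfl

theorem comp_connected {V : Type*} (F : SimpleGraph V) (v : V) :
    (F.induce {z | F.Reachable v z}).Connected := by
  have : Nonempty {z | F.Reachable v z} := ⟨⟨v, SimpleGraph.Reachable.refl _⟩⟩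
  refine ⟨?_⟩
  have key : ∀ {a b : V} (_ : F.Walk a b) (ha : F.Reachable v a) (hb : F.Reachable v b),
      (F.induce {z | F.Reachable v z}).Reachable ⟨a, ha⟩ ⟨b, hb⟩ := by
    intro a b w
    induction w with
    | nil =>
      intro ha hb
      exact SimpleGraph.Reachable.refl _
    | @cons a b c hadj _ ih =>
      intro ha hc
      have hb : F.Reachable v b := ha.trans hadj.reachable
      refine SimpleGraph.Reachable.trans (SimpleGraph.Adj.reachable ?_) (ih hb hc)
      exact hadj
  rintro ⟨a, ha⟩ ⟨b, hb⟩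
  obtain ⟨w⟩ := ha.symm.trans hb
  exact key w ha hb

/-- Connected graphs with `m ≤ n / (log n + 1) ^ 2` vertices. -/
theorem small {V : Type*} [Fintype V] (G : SimpleGraph V) (hG : G.Connected) {n : ℝ} (hn : 1 ≤ n)
    (h : (Fintype.card V : ℝ) * (Real.log n + 1) ^ 2 ≤ n) : (copNumber G : ℝ) ≤ 81 * √n := by
  refine (Pool.Agent.H594R2.Mey2.graph_bound G hG).trans ?_
  have := Pool.Agent.D0H27.Ret.small_bound' (Nat.cast_nonneg _) hn h
  linarith

/-- Let `n` be the number of vertices.
(1) Let a finite commutative group `A` and a group `B`, whose actions commute, act on the vertices of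
the connected graph `G` by automorphisms of `G` and of a subgraph `F` of `G`. Let every component of
`F` have cop number at most `q`.
(1a) If for every edge `xy` of `G` outside `F` (in both directions) there is an `a` in the set
`T ⊆ A` such that `a y` is equal to `x` or adjacent to `x` in `F`, then `c(G) ≤ q + |T|`.
(1b) If such an element `a` of `A` exists for every edge `xy` of `G`, then `c(G) ≤ q + 2 √N`, where `N`
is the number of the pairs `(p, z)` such that `p` is in `P`, a set of vertices which meets all orbits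
of `B`, and `z` is in an orbit of `A` which contains a neighbour of `p` in `G - F`.
(1c) In this situation (with `B = A`) we also have `c(G) ≤ q + 2 √(d n)` if every vertex has its
neighbours in `G - F` in at most `d` orbits of `A`.
(1d) If every component of `F` has at most `n / (log n + 1) ^ 2` vertices, then (1b) and (1c) hold with
`q` replaced by `81 √n`.
(2) Let `S` and `T` be subsets of a finite group, and let now `n` be the order of `⟨S⟩`.
(2a) If `T ⊆ S` and there is a commutative subgroup `N ⊇ S \ T` of `⟨S⟩` normalised by `⟨S⟩` then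
`c(Cay(⟨S⟩, S)) ≤ c(Cay(⟨T⟩, T)) + m`, where `m` is the number of the conjugates by elements of
`⟨S⟩` of the elements of `S \ T` and their inverses.
(2b) If `Layer δ S T` then `c(Cay(⟨S⟩, S)) ≤ c(Cay(⟨T⟩, T)) + 2 √(δ n)`, and this is at most
`81 √n + 2 √(δ n)` if `|⟨T⟩| (log n + 1) ^ 2 ≤ n`.
(2c) Let `T ⊆ S`, let `N` be a subgroup of `⟨S⟩`, and let every element of `S \ T` lie in a coset
`t N`, `t ∈ T ∪ T⁻¹ ∪ {1}`. If `N` is central in `⟨S⟩` then `Layer 1 S T`. If `N` is commutative and
normalised by `⟨S⟩` and `(S ∪ S⁻¹) \ (T ∪ T⁻¹)` meets at most `d` cosets of `N` then `Layer d S T`.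
(3) Let `S 0 ⊇ S 1 ⊇ ... ⊇ S k` be subsets of a finite group with `Layer δ (S i) (S (i + 1))` for all
`i < k`, `δ ≥ 0`; let `n` be the order of `⟨S 0⟩`, and let `⟨S (i + 1)⟩ = ⟨S i⟩` hold for `e` of the
`i < k`. Then `c(Cay(⟨S 0⟩, S 0)) ≤ c(Cay(⟨S k⟩, S k)) + (7 + 2 e) √(δ n)`. This is at most
`(7 + 2 e) √(δ n) + 1` if `S k = ∅`, so at most `8 √n` for `δ = 1`, `e = 0`; and at most
`81 √n + (7 + 2 e) √(δ n)` if `|⟨S k⟩| (log n + 1) ^ 2 ≤ n`.
(4) Let `N` be a commutative normal subgroup of the finite group `Γ`, let the Cayley graph of `Γ` with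
connection set `S` be connected, and `S ⊆ N ∪ tN ∪ t⁻¹N` for some `t ∈ S`. Then `c ≤ 3 + 2 √(3 n)`.
(5) Let `S` be a subset of a finite group such that every `s ∈ S` commutes with its conjugates by
elements of `⟨S⟩`. Then `c(Cay(⟨S⟩, S)) ≤ 1 + m`, where `m` is the sum over `s ∈ S` of the numbers of
the conjugates of `s` and `s⁻¹` by elements of `⟨S⟩`; and `c(Cay(⟨S⟩, S)) ≤ 8 √|⟨S⟩|` if no element
`s` of `S` lies in `⟨S \ {s}⟩`. -/
theorem result.{u, v, v', w} :
    -- (1)
    (∀ (V : Type u) (A : Type v) [Fintype V] [CommGroup A] [Finite A] [MulAction A V]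
      (G F : SimpleGraph V), G.Connected → F ≤ G →
      (∀ (a : A) (x y : V), G.Adj x y → G.Adj (a • x) (a • y)) →
      (∀ (a : A) (x y : V), F.Adj x y → F.Adj (a • x) (a • y)) →
      -- (1a)
      (∀ q : ℕ, (∀ v, copNumber (F.induce {z | F.Reachable v z}) ≤ q) →
        ∀ T : Finset A, (∀ x y, G.Adj x y → ¬ F.Adj x y → ∃ a ∈ T, x = a • y ∨ F.Adj x (a • y)) →
          copNumber G ≤ q + T.card) ∧
      ((∀ x y, G.Adj x y → ∃ a : A, x = a • y ∨ F.Adj x (a • y)) → ∀ q : ℝ,
        ((∀ v, (copNumber (F.induce {z | F.Reachable v z}) : ℝ) ≤ q) ∨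
          (q = 81 * √(Fintype.card V : ℝ) ∧ ∀ v, (({z | F.Reachable v z} : Set V).ncard : ℝ) *
            (Real.log (Fintype.card V) + 1) ^ 2 ≤ Fintype.card V)) →
        -- (1b)
        (∀ (B : Type v') [Group B] [MulAction B V] [SMulCommClass A B V],
          (∀ (b : B) (x y : V), G.Adj x y → G.Adj (b • x) (b • y)) →
          (∀ (b : B) (x y : V), F.Adj x y → F.Adj (b • x) (b • y)) →
          ∀ P : Set V, (∀ x : V, ∃ b : B, ∃ p ∈ P, x = b • p) →
          (copNumber G : ℝ) ≤ q + 2 * √(({e : V × V | e.1 ∈ P ∧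
            ∃ a : A, G.Adj e.1 (a • e.2) ∧ ¬ F.Adj e.1 (a • e.2)}.ncard : ℝ))) ∧
        -- (1c)
        ∀ d : ℕ, (∀ y, (MulAction.orbit A '' {x | G.Adj x y ∧ ¬ F.Adj x y}).ncard ≤ d) →
          (copNumber G : ℝ) ≤ q + 2 * √((d : ℝ) * Fintype.card V))) ∧
    -- (2)
    (∀ (Γ : Type w) [Group Γ] [Finite Γ] (S T : Set Γ), T ⊆ S →
      -- (2a)
      (∀ N : Subgroup Γ, N ≤ Subgroup.closure S →
        (∀ g ∈ Subgroup.closure S, ∀ a ∈ N, g * a * g⁻¹ ∈ N) →
        (∀ a ∈ N, ∀ b ∈ N, a * b = b * a) → (∀ s ∈ S, s ∉ T → s ∈ N) →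
        copNumber (Cay S) ≤ copNumber (Cay T) +
          ({u | ∃ g ∈ Subgroup.closure S, ∃ s ∈ S, s ∉ T ∧
            (u = g * s * g⁻¹ ∨ u = g * s⁻¹ * g⁻¹)} : Set Γ).ncard) ∧
      -- (2b)
      (∀ δ : ℝ, 0 ≤ δ → Layer δ S T →
        (copNumber (Cay S) : ℝ) ≤ copNumber (Cay T) +
          2 * √(δ * Nat.card (Subgroup.closure S)) ∧
        ((Nat.card (Subgroup.closure T) : ℝ) *
          (Real.log (Nat.card (Subgroup.closure S)) + 1) ^ 2 ≤ Nat.card (Subgroup.closure S) →
          (copNumber (Cay S) : ℝ) ≤ 81 * √(Nat.card (Subgroup.closure S) : ℝ) +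
            2 * √(δ * Nat.card (Subgroup.closure S)))) ∧
      -- (2c)
      ∀ N : Subgroup Γ, N ≤ Subgroup.closure S →
        (∀ s ∈ S, s ∉ T → ∃ t, (t = 1 ∨ t ∈ T ∨ t⁻¹ ∈ T) ∧ t⁻¹ * s ∈ N) →
        ((∀ g ∈ Subgroup.closure S, ∀ a ∈ N, g * a = a * g) → Layer 1 S T) ∧
        ∀ d : ℕ, (∀ g ∈ Subgroup.closure S, ∀ a ∈ N, g * a * g⁻¹ ∈ N) →
          (∀ a ∈ N, ∀ b ∈ N, a * b = b * a) → (cosets N S T).ncard ≤ d → Layer d S T) ∧
    -- (3)
    (∀ (Γ : Type w) [Group Γ] [Finite Γ] (δ : ℝ) (k : ℕ) (S : ℕ → Set Γ), 0 ≤ δ →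
      (∀ i < k, Layer δ (S i) (S (i + 1))) →
      (copNumber (Cay (S 0)) : ℝ) ≤ copNumber (Cay (S k)) +
        (7 + 2 * repetitions S k) * √(δ * Nat.card (Subgroup.closure (S 0))) ∧
      (S k = ∅ → (copNumber (Cay (S 0)) : ℝ) ≤
        (7 + 2 * repetitions S k) * √(δ * Nat.card (Subgroup.closure (S 0))) + 1) ∧
      (S k = ∅ → δ = 1 → repetitions S k = 0 → (copNumber (Cay (S 0)) : ℝ) ≤
        8 * √(Nat.card (Subgroup.closure (S 0)) : ℝ)) ∧
      ((Nat.card (Subgroup.closure (S k)) : ℝ) *
        (Real.log (Nat.card (Subgroup.closure (S 0))) + 1) ^ 2 ≤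
          Nat.card (Subgroup.closure (S 0)) →
        (copNumber (Cay (S 0)) : ℝ) ≤ 81 * √(Nat.card (Subgroup.closure (S 0)) : ℝ) +
          (7 + 2 * repetitions S k) * √(δ * Nat.card (Subgroup.closure (S 0))))) ∧
    -- (4)
    (∀ (Γ : Type w) [Group Γ] [Fintype Γ] (N : Subgroup Γ) (S : Set Γ), N.Normal →
      (∀ a ∈ N, ∀ b ∈ N, a * b = b * a) → (cayley S).Connected →
      (∃ t ∈ S, ∀ s ∈ S, s ∈ N ∨ t⁻¹ * s ∈ N ∨ t * s ∈ N) →
      (copNumber (cayley S) : ℝ) ≤ 3 + 2 * √(3 * (Fintype.card Γ : ℝ))) ∧
    -- (5)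
    ∀ (Γ : Type w) [Group Γ] [Finite Γ] (S : Finset Γ),
      (∀ s ∈ S, ∀ g ∈ Subgroup.closure (S : Set Γ), s * (g * s * g⁻¹) = (g * s * g⁻¹) * s) →
      copNumber (Cay (S : Set Γ)) ≤ 1 + ∑ s ∈ S, numConj (Subgroup.closure (S : Set Γ)) s ∧
      ((∀ s ∈ S, s ∉ Subgroup.closure ((S : Set Γ) \ {s})) →
        (copNumber (Cay (S : Set Γ)) : ℝ) ≤ 8 * √(Nat.card (Subgroup.closure (S : Set Γ)) : ℝ)) := by
  refine ⟨?_, ?_, ?_, ?_, ?_⟩
  · intro V A _ _ _ _ G F hG hFG hGi hFi
    refine ⟨fun q hq T hT => Pool.Agent.D0H27.Abel.types_bound hG hFG hGi hFi q hq T hT,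
      fun hr q hq => ?_⟩
    classical
    have : Nonempty V := hG.nonempty
    have hn1 : (1 : ℝ) ≤ Fintype.card V := by exact_mod_cast Fintype.card_pos
    -- an integer
    obtain ⟨q0, hq0, hq1⟩ : ∃ q0 : ℕ, (∀ v, copNumber (F.induce {z | F.Reachable v z}) ≤ q0) ∧
        (q0 : ℝ) ≤ q := by
      rcases hq with hq | ⟨hq, hs⟩
      · refine ⟨⌊q⌋₊, fun v => Nat.le_floor (hq v), Nat.floor_le ?_⟩
        obtain ⟨v⟩ := this
        exact le_trans (Nat.cast_nonneg _) (hq v)
      · refine ⟨⌊q⌋₊, fun v => Nat.le_floor ?_, Nat.floor_le (by rw [hq]; positivity)⟩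
        rw [hq]
        refine small _ (comp_connected F v) hn1 ?_
        have h2 : Fintype.card {z | F.Reachable v z} =
            ({z | F.Reachable v z} : Set V).ncard := by
          rw [← Nat.card_eq_fintype_card]
          rfl
        rw [h2]
        exact hs v
    refine ⟨fun B _ _ _ hGb hFb P hP => ?_, fun d hd => ?_⟩
    · have h1 := Pool.Agent.D0H27.Abel.sqrt_gen B hG hFG hGi hFi hGb hFb q0 hq0 hr
        (Set.toFinite P).toFinset (fun x => by
          obtain ⟨b, p, hp, hx⟩ := hP x
          exact ⟨b, p, (Set.Finite.mem_toFinset _).2 hp, hx⟩)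
        ({e : V × V | e.1 ∈ P ∧
            ∃ a : A, G.Adj e.1 (a • e.2) ∧ ¬ F.Adj e.1 (a • e.2)}.ncard : ℝ) (by
          rw [← Set.ncard_coe_finset]
          refine Nat.cast_le.2 (Set.ncard_le_ncard ?_ (Set.toFinite _))
          intro e he
          rw [Finset.mem_coe, Finset.mem_filter, Set.Finite.mem_toFinset] at he
          exact he.2)
      linarith
    · have h1 := Pool.Agent.D0H27.Abel.sqrt_bound hG hFG hGi hFi q0 hq0 hr d hd
      linarith
  · intro Γ _ _ S T hTS
    refine ⟨fun N h0 h1 h2 h3 => (Pool.Agent.D0H27.Abel.amb S T hTS N h0 h1 h2).1 h3,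
      fun δ hδ hL => ?_, fun N hNS hr => ⟨fun hN => ?_, fun d hN hab hd => ?_⟩⟩
    · have h1 := Pool.Agent.D0H27.Abel.layer_bound δ S T hL
      refine ⟨h1, fun hs => ?_⟩
      have hn1 : (1 : ℝ) ≤ Nat.card (Subgroup.closure S) := by exact_mod_cast Nat.card_pos
      have : Fintype (Subgroup.closure T : Set Γ) := Fintype.ofFinite _
      have h2 := small (Cay T) (Pool.Agent.D0H27.Abel.cay_connected T) hn1 (by
        have h3 : Fintype.card (Subgroup.closure T : Set Γ) = Nat.card (Subgroup.closure T) := by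
          rw [← Nat.card_eq_fintype_card]
          rfl
        rw [h3]
        exact hs)
      change (copNumber (Pool.Agent.D0H27.Abel.Cay T) : ℝ) ≤ _ at h2
      change (copNumber (Pool.Agent.D0H27.Abel.Cay S) : ℝ) ≤ _
      linarith
    · exact Pool.Agent.D0H27.Abel.layer_central S T hTS N hNS hN hr
    · exact Pool.Agent.D0H27.Abel.layer_few d S T hTS N hNS hN hab hr hd
  · intro Γ _ _ δ k S hδ hS
    have h1 := Pool.Agent.D0H27.Abel.chain2 hδ k S hS
    have hn1 : (1 : ℝ) ≤ Nat.card (Subgroup.closure (S 0)) := by exact_mod_cast Nat.card_pos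
    have he : S k = ∅ → (copNumber (Cay (S 0)) : ℝ) ≤
        (7 + 2 * repetitions S k) * √(δ * Nat.card (Subgroup.closure (S 0))) + 1 := by
      intro hk
      rw [hk] at h1
      have h2 : (copNumber (Pool.Agent.D0H27.Abel.Cay (∅ : Set Γ)) : ℝ) ≤ 1 := by
        exact_mod_cast Pool.Agent.D0H27.Abel.cay_empty (Γ := Γ)
      change (copNumber (Pool.Agent.D0H27.Abel.Cay (S 0)) : ℝ) ≤
        (7 + 2 * (Pool.Agent.D0H27.Abel.reps S k : ℝ)) * _ + 1
      linarith
    refine ⟨h1, he, fun hk hd h0 => ?_, fun hs => ?_⟩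
    · have h2 := he hk
      rw [hd, h0, one_mul] at h2
      have h3 : 1 ≤ √(Nat.card (Subgroup.closure (S 0)) : ℝ) := Real.one_le_sqrt.2 hn1
      push_cast at h2
      linarith
    · have : Fintype (Subgroup.closure (S k) : Set Γ) := Fintype.ofFinite _
      have h2 := small (Cay (S k)) (Pool.Agent.D0H27.Abel.cay_connected (S k)) hn1 (by
        have h3 : Fintype.card (Subgroup.closure (S k) : Set Γ) =
            Nat.card (Subgroup.closure (S k)) := by
          rw [← Nat.card_eq_fintype_card]
          rfl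
        rw [h3]
        exact hs)
      change (copNumber (Pool.Agent.D0H27.Abel.Cay (S k)) : ℝ) ≤ _ at h2
      change (copNumber (Pool.Agent.D0H27.Abel.Cay (S 0)) : ℝ) ≤
        _ + (7 + 2 * (Pool.Agent.D0H27.Abel.reps S k : ℝ)) * _
      linarith
  · intro Γ _ _ N S hNn hab hconn ⟨t, htS, ht⟩
    have htop : Subgroup.closure S = ⊤ := by
      rw [eq_top_iff]
      intro x _
      have := hconn.preconnected 1 x
      have h4 := (Pool.Agent.D0H27.Abel.reach_iff S 1 x).1 this
      simpa using h4
    -- first layer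
    have hL : Layer (3 : ℕ) S {t} := by
      refine Pool.Agent.D0H27.Abel.layer_few 3 S {t} (Set.singleton_subset_iff.2 htS) N
        (by rw [htop]; exact le_top) (fun g _ a ha => hNn.conj_mem a ha g) hab ?_ ?_
      · intro s hs _
        rcases ht s hs with h | h | h
        · exact ⟨1, Or.inl rfl, by simpa using h⟩
        · exact ⟨t, Or.inr (Or.inl rfl), h⟩
        · exact ⟨t⁻¹, Or.inr (Or.inr (by simp)), by simpa using h⟩
      · have h1 : Pool.Agent.D0H27.Abel.cosets N S {t} ⊆
            {((1 : Γ) : Γ ⧸ N), ((t : Γ) : Γ ⧸ N), ((t⁻¹ : Γ) : Γ ⧸ N)} := by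
          rintro _ ⟨s, ⟨h1, -, -⟩, rfl⟩
          have h2 : s ∈ N ∨ t⁻¹ * s ∈ N ∨ t * s ∈ N := by
            rcases h1 with h1 | h1
            · exact ht s h1
            · rcases ht _ h1 with h | h | h
              · left
                simpa using N.inv_mem h
              · right; right
                have h3 := hNn.conj_mem _ (N.inv_mem h) t
                have h4 : t * (t⁻¹ * s⁻¹)⁻¹ * t⁻¹ = t * s := by group
                rwa [h4] at h3
              · right; left
                have h3 := hNn.conj_mem _ (N.inv_mem h) t⁻¹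
                have h4 : t⁻¹ * (t * s⁻¹)⁻¹ * t⁻¹⁻¹ = t⁻¹ * s := by group
                rwa [h4] at h3
          simp only [Set.mem_insert_iff, Set.mem_singleton_iff]
          rcases h2 with h | h | h
          · left
            rw [QuotientGroup.eq, mul_one]
            exact N.inv_mem h
          · right; left
            refine (QuotientGroup.eq.2 h).symm
          · right; right
            refine (QuotientGroup.eq.2 ?_).symm
            rwa [inv_inv]
        refine (Set.ncard_le_ncard h1 (Set.toFinite _)).trans ?_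
        refine (Set.ncard_insert_le _ _).trans ?_
        have := Set.ncard_insert_le ((t : Γ) : Γ ⧸ N) {((t⁻¹ : Γ) : Γ ⧸ N)}
        rw [Set.ncard_singleton] at this
        omega
    have h1 := Pool.Agent.D0H27.Abel.layer_bound (3 : ℕ) S {t} hL
    -- second layer
    have h2 : copNumber (Pool.Agent.D0H27.Abel.Cay ({t} : Set Γ)) ≤ 1 + 2 := by
      have h3 := (Pool.Agent.D0H27.Abel.amb ({t} : Set Γ) ∅ (Set.empty_subset _)
        (Subgroup.closure {t}) le_rfl (fun g hg a ha => Subgroup.mul_mem _ (Subgroup.mul_mem _ hg ha)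
          (Subgroup.inv_mem _ hg)) (by
          intro a ha b hb
          rw [← Subgroup.zpowers_eq_closure] at ha hb
          obtain ⟨i, rfl⟩ := ha
          obtain ⟨j, rfl⟩ := hb
          simp only
          rw [← zpow_add, ← zpow_add, add_comm])).1 (by
          intro s hs _
          exact Subgroup.subset_closure hs)
      have h4 := Pool.Agent.D0H27.Abel.cay_empty (Γ := Γ)
      have h5 : ({u | ∃ g ∈ Subgroup.closure ({t} : Set Γ), ∃ s ∈ ({t} : Set Γ), s ∉ (∅ : Set Γ) ∧
          (u = g * s * g⁻¹ ∨ u = g * s⁻¹ * g⁻¹)} : Set Γ).ncard ≤ 2 := by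
        have h6 : ({u | ∃ g ∈ Subgroup.closure ({t} : Set Γ), ∃ s ∈ ({t} : Set Γ),
            s ∉ (∅ : Set Γ) ∧ (u = g * s * g⁻¹ ∨ u = g * s⁻¹ * g⁻¹)} : Set Γ) ⊆ {t, t⁻¹} := by
          rintro u ⟨g, hg, s, hs, -, hu⟩
          rw [Set.mem_singleton_iff] at hs
          subst hs
          rw [← Subgroup.zpowers_eq_closure] at hg
          obtain ⟨i, rfl⟩ := hg
          simp only [Set.mem_insert_iff, Set.mem_singleton_iff]
          rcases hu with rfl | rfl
          · left
            simp only
            group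
          · right
            simp only
            group
        refine (Set.ncard_le_ncard h6 (Set.toFinite _)).trans ?_
        have := Set.ncard_insert_le t {t⁻¹}
        rw [Set.ncard_singleton] at this
        omega
      omega
    have h3 : (copNumber (Pool.Agent.D0H27.Abel.Cay ({t} : Set Γ)) : ℝ) ≤ 1 + 2 := by
      exact_mod_cast h2
    -- the Cayley graph on `Γ`
    have h4 : copNumber (cayley S) ≤ copNumber (Pool.Agent.D0H27.Abel.Cay S) := by
      have : Nonempty (Subgroup.closure S : Set Γ) := ⟨⟨1, Subgroup.one_mem _⟩⟩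
      refine Pool.Agent.D0H27.Ret.cop_iso (Pool.Agent.D0H27.Abel.Cay S) (cayley S)
        ⟨⟨fun x => x.1, fun x => ⟨x, by rw [htop]; exact Subgroup.mem_top x⟩, fun x => rfl,
        fun x => rfl⟩, ?_⟩
      intro x y
      exact Iff.rfl
    have h5 : (copNumber (cayley S) : ℝ) ≤ copNumber (Pool.Agent.D0H27.Abel.Cay S) := by
      exact_mod_cast h4
    have h6 : Nat.card (Subgroup.closure S) = Fintype.card Γ := by
      rw [htop, Subgroup.card_top, Nat.card_eq_fintype_card]
    rw [h6] at h1
    push_cast at h1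
    linarith
  · intro Γ _ _ S hE
    classical
    refine ⟨Pool.Agent.D0H27.Abel.engel_sum (S : Set Γ) (fun s hs => hE s hs) S subset_rfl,
      fun hI => ?_⟩
    have h1 := Pool.Agent.D0H27.Abel.engel_irr (S : Set Γ).ncard (S : Set Γ) rfl
      (fun s hs => hE s hs) (fun s hs => hI s hs)
    have hn1 : (1 : ℝ) ≤ Nat.card (Subgroup.closure (S : Set Γ)) := by
      exact_mod_cast Nat.card_pos
    have h3 : 1 ≤ √(Nat.card (Subgroup.closure (S : Set Γ)) : ℝ) := Real.one_le_sqrt.2 hn1
    change (copNumber (Pool.Agent.D0H27.Abel.Cay (S : Set Γ)) : ℝ) ≤ _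
    linarith

end Pool.Agent.Results.MP_964892_co.AbelianSymmetries
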