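import Pool.Agent.D0H27.Lab.Free

set_option autoImplicit false
open N6ef48c04

namespace Pool.Agent.Results.MP_964892_co.LargeCentralizers

/-!
# The soft Meyniel conjecture for Cayley graphs of groups with large centralizers

Meyniel's conjecture asks for `c(G) ≤ C √n`, the soft version for `c(G) ≤ n ^ (1 - ε)`. We show for
every finite group `Γ` of order `n` and every generating set `S`:
* `c(Cay(Γ, S)) ≤ c(Cay(⟨T⟩, T)) + 2 √n` if `S = T ∪ U` where `U` is closed under conjugation; so
  Meyniel's bound holds for instance if `⟨T⟩` is commutative, and with the constant `8` for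
  generating sets with a chain of such steps; and a version for all graphs with a free action of a
  finite group;
* `c(Cay(Γ, S)) ≤ 1 + √(κ n (1 + log n))` and `c(Cay(Γ, S)) ≤ 1 + 2 |S| κ` if the elements of `S` have
  at most `κ` conjugates;
* `c(Cay(Γ, S)) ≤ 6 n √(|N| / |M|)` if `M / N` is a central section of `Γ`, so at most
  `6 n / √|Z(Γ)|`, without any logarithm;
* `c(Cay(Γ, S)) ≤ 5 √n` if the centre of `Γ` has index at most `n ^ (1 / 4)`, and
  `c(Cay(Γ, S)) ≤ 1 + 2 √n + 2 τ κ` if `S` meets `τ` cosets of the centre and the elements of `S` have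
  at most `κ` conjugates;
* `c(Cay(Γ, S)) ≤ 6 n ^ (1 - 1 / (2 k))` and `c(Cay(Γ, S)) ≤ 1 + 2 |S| n ^ (1 - 1 / k)` if `Γ` is
  nilpotent of class at most `k` (for `k = 1` these are the commutative groups and the first bound
  has the order of Meyniel's conjecture; for `k = 2` and a bounded number of generators the second
  bound has this order);
* `c(Cay(Γ, S)) ≤ 3 d n ^ (1 - 1 / (2 (d ^ 2 - 1))) √(1 + log n)` for the special linear groups of
  degree `d ≥ 2` over all finite fields and their central quotients, for instance the simple groups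
  `PSL(d, q)`; for `d = 2` the exponent is `5 / 6`;
* `c(Cay(Γ, S)) ≤ C(d) n ^ (1 - 1 / (4 d ^ 2)) √(1 + log n)` for the classical groups of degree
  `d ≥ 3` over all finite fields and their noncommutative images with kernels of bounded order (in
  the unitary case of order at most `d`, say): the isometry groups of arbitrary involutions of the
  ring of all `d × d` matrices and their subgroups of bounded index, hence symplectic groups,
  unitary and special unitary groups, and in odd characteristic orthogonal groups, for instance the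
  simple groups `PSp`, `PSU`, `PΩ`;
* `c(Cay(Γ, S)) ≤ 1 + n ^ (1 - δ / 2) √(1 + log n)` with `δ = δ(d, k, m) > 0` for all direct products
  of arbitrarily many groups each of which is of order at most `m` or nilpotent of class at most `k`
  or has a centre or a commutator factor group of order at least `|Q| ^ (1 / k)` or is one of these
  special linear or classical groups of degree at most `d`;
* versions for homomorphic images, so for all extensions of such groups by groups of order at most
  `n ^ (1 - ε)`, and a version for vertex-transitive graphs.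

Proof idea. Let a finite group `A` (not necessarily commutative) act on the graph. A cop at `D x`
(`D ∈ A`, robber at `x`) keeps his difference `D` by imitation. Suppose that the robber moves from
`x` to `y` and `a y = x` for a certain element `a` of `A`, the label of this move. If the cop does not
move then his new difference is `D a`. Let `Q` be the set of the labels which the robber is still
able to use. Modulo the group `W` generated by `Q` the robber does not move at all, so a cop gets a
difference in `W`. This difference is the inverse of a product of labels in `Q`; the cop waits for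
the first factor, then for the second one, and so on. As long as the robber does not use the factor
for which the cop waits, the other cops have to deal with a smaller set of labels only. So the number
of all labels, plus one, is enough. In a Cayley graph the labels are the conjugates of the
generators, and if there are many generators then few vertices dominate the graph. For a central
subgroup `Z` there are two more ingredients: all generators but one in every coset of `Z` cost at
most `2 √n` cops (`D0H27.Abel`), and a set of vertices which is invariant under `Z` can be chosen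
such that only a few moves modulo `Z` lead to a vertex which it does not dominate.

For the classical groups let `x` be an isometry of the involution `σ`. If `a` commutes with `x` and
with `σ(a) ≠ a` then the elements `(t + a) (t + σ(a))⁻¹` with fixed scalars `t` are isometries which
commute with `x`; it remains to find such an element `a`, or two parameters in the unitary case.

For part (6) write the position of the robber as `g w`, starting with `g = 1`. When he uses an
element of `T` then `w` changes to `w t`; when he uses an element `s` of `U` then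
`g w s = g (w s w⁻¹) w` and `g` changes to `g u` with `u = w s w⁻¹ ∈ U`. Guards start at the elements
`c` of a set such that every vertex has at most `√n` neighbours via `U` which it does not dominate. The
guard `c` keeps the position `g (c w₀⁻¹) w`, where `w₀` is the start of the robber. Since `U` is
closed under conjugation this is possible, and the guards exclude all but `√n` of the labels `u` for
the whole game. To each of these labels belongs a chaser: first he gets into the coset of the robber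
modulo `⟨U⟩` (the cops of `Cay T` play modulo `⟨U⟩`), then his difference is multiplied by the label
and by any element of `U` whenever the robber uses this label. The proof of (1c) is the same; there
`w` is a vertex and the guards are those which start in the orbit of the robber.
-/

/-- The undirected Cayley graph on `Γ` with connection set `S`. -/
def cayley {Γ : Type*} [Group Γ] (S : Set Γ) : SimpleGraph Γ where
  Adj x y := x ≠ y ∧ (x⁻¹ * y ∈ S ∨ y⁻¹ * x ∈ S)
  symm := ⟨fun _ _ h => ⟨h.1.symm, h.2.symm⟩⟩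
  loopless := ⟨fun _ h => h.1 rfl⟩

/-- The (connected) undirected Cayley graph of the subgroup `⟨T⟩` generated by `T` with connection
set `T`. -/
def Cay {Γ : Type*} [Group Γ] (T : Set Γ) : SimpleGraph (Subgroup.closure T : Set Γ) :=
  (cayley T).induce (Subgroup.closure T : Set Γ)

/-- `σ` is an involution of the ring of the `d × d` matrices over `F`: an anti-automorphism whose
square is the identity. -/
def IsInvolution {d : ℕ} {F : Type*} [Field F]
    (σ : Matrix (Fin d) (Fin d) F → Matrix (Fin d) (Fin d) F) : Prop :=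
  (∀ x y, σ (x + y) = σ x + σ y) ∧ (∀ x y, σ (x * y) = σ y * σ x) ∧ ∀ x, σ (σ x) = x

/-- The number of the scalars which are fixed by `σ`. -/
noncomputable def numFixed {d : ℕ} {F : Type*} [Field F]
    (σ : Matrix (Fin d) (Fin d) F → Matrix (Fin d) (Fin d) F) : ℕ :=
  ({t | σ (Matrix.scalar (Fin d) t) = Matrix.scalar (Fin d) t} : Set F).ncard

/-- `ρ` is a faithful representation of the group `H` by isometries, that is by matrices `x` with
`x σ(x) = 1`, and there are at most `r |H|` isometries; if some scalar is not fixed by `σ` then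
`r q |H|` isometries are allowed, where `q` is the number of the scalars fixed by `σ`. -/
def IsometryGroup {d : ℕ} {F : Type*} [Field F]
    (σ : Matrix (Fin d) (Fin d) F → Matrix (Fin d) (Fin d) F) {H : Type*} [Group H]
    (ρ : H →* Matrix (Fin d) (Fin d) F) (r : ℝ) : Prop :=
  Function.Injective ρ ∧ (∀ k, ρ k * σ (ρ k) = 1) ∧
  ((({x | x * σ x = 1} : Set (Matrix (Fin d) (Fin d) F)).ncard : ℝ) ≤ r * Nat.card H ∨
    (∃ t : F, σ (Matrix.scalar (Fin d) t) ≠ Matrix.scalar (Fin d) t) ∧
    (({x | x * σ x = 1} : Set (Matrix (Fin d) (Fin d) F)).ncard : ℝ) ≤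
      r * numFixed σ * Nat.card H)

/-- The finite groups `Q` which are the factors in part (5): `|Q| ≤ m`, or `Q` is nilpotent of class at
most `k`, or `Q` has a central section `M / N` with `|Q| ≤ (|M| / |N|) ^ k`, or `Q` is an image of `SL(e, F)`, `2 ≤ e ≤ d`, with a kernel of order at most `B`, or a
noncommutative image of a group `H` as in `IsometryGroup σ ρ r` with matrices of degree `e`,
`3 ≤ e ≤ d`, such that `r ≥ 1` and `r` times the order of the kernel is at most `B`. -/
def Factor.{x, y} (d k m : ℕ) (B : ℝ) (Q : Type x) [Group Q] : Prop :=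
  Nat.card Q ≤ m ∨ (Group.IsNilpotent Q ∧ Group.nilpotencyClass Q ≤ k) ∨
  (∃ M N : Subgroup Q, N ≤ M ∧ (∀ x ∈ M, ∀ g, x * g * x⁻¹ * g⁻¹ ∈ N) ∧
    Nat.card Q * Nat.card N ^ k ≤ Nat.card M ^ k) ∨
  (∃ (e : ℕ) (F : Type y) (_ : Field F) (_ : Fintype F)
    (π : Matrix.SpecialLinearGroup (Fin e) F →* Q), 2 ≤ e ∧ e ≤ d ∧ Function.Surjective π ∧
      (Nat.card π.ker : ℝ) ≤ B) ∨
  ∃ (e : ℕ) (F : Type y) (_ : Field F) (_ : Fintype F)
    (σ : Matrix (Fin e) (Fin e) F → Matrix (Fin e) (Fin e) F) (H : Type x) (_ : Group H)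
    (ρ : H →* Matrix (Fin e) (Fin e) F) (r : ℝ) (π : H →* Q), 3 ≤ e ∧ e ≤ d ∧
      IsInvolution σ ∧ 1 ≤ r ∧ IsometryGroup σ ρ r ∧ Function.Surjective π ∧
      r * Nat.card π.ker ≤ B ∧ ∃ a b : Q, a * b ≠ b * a

theorem numFixed_eq {d : ℕ} {F : Type*} [Field F] [Fintype F] [DecidableEq F]
    (σ : Matrix (Fin d) (Fin d) F → Matrix (Fin d) (Fin d) F) :
    numFixed σ = (Pool.Agent.D0H27.Lab.fixed σ).card := by
  unfold numFixed
  rw [← Set.ncard_coe_finset]
  congr 1
  ext t
  simp only [Pool.Agent.D0H27.Lab.fixed, Finset.coe_filter, Finset.mem_univ, true_and]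

theorem isom_eq {d : ℕ} {F : Type*} [Field F] [Fintype F] [DecidableEq F]
    (σ : Matrix (Fin d) (Fin d) F → Matrix (Fin d) (Fin d) F) :
    ({x | x * σ x = 1} : Set (Matrix (Fin d) (Fin d) F)).ncard =
      (Pool.Agent.D0H27.Lab.isom σ).card := by
  rw [← Set.ncard_coe_finset]
  congr 1
  ext t
  simp only [Pool.Agent.D0H27.Lab.isom, Finset.coe_filter, Finset.mem_univ, true_and]

/-- The number of the conjugates of `a`. -/
noncomputable def numConj {Γ : Type*} [Group Γ] (a : Γ) : ℕ :=
  ({u | ∃ g, u = g * a * g⁻¹} : Set Γ).ncard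

theorem numConj_eq {Γ : Type*} [Group Γ] [Fintype Γ] (a : Γ) :
    numConj a = (Pool.Agent.D0H27.Lab.cl a).card := by
  classical
  unfold numConj
  rw [← Set.ncard_coe_finset]
  congr 1
  ext u
  simp only [Pool.Agent.D0H27.Lab.cl, Finset.coe_image, Finset.coe_univ, Set.image_univ,
    Set.mem_range, Set.mem_ofPred_eq]
  constructor
  · rintro ⟨g, rfl⟩
    exact ⟨g, rfl⟩
  · rintro ⟨g, rfl⟩
    exact ⟨g, rfl⟩

/-- Part (1). Let a finite group `A` act on the `n` vertices of the connected graph `G` by automorphisms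
of `G` and of a subgraph `F` of `G`, and let every component of `F` have cop number at most `q`.
(1a) Let `C` be a set of vertices and `T ⊆ A` such that for every edge `xy` of `G` outside `F` (in both
directions) either `y` is dominated by `C` or some `a ∈ T` satisfies `x = a y` or `x` is adjacent to
`a y` in `F`. Then `c(G) ≤ |C| + q + |T|`.
(1b) If `A` is transitive on the vertices and such an `a ∈ A` with at most `κ` conjugates exists for
every edge `xy` of `G` outside `F` then `c(G) ≤ q + √(κ n (1 + log n))`.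
(1c) Let no element of `A` but `1` fix a vertex. Let `U ⊆ A` be closed under conjugation, let `u x` be
equal or adjacent to `x` for all `u ∈ U` and all vertices `x`, and let every edge of `G` outside `F`
be of the form `{x, u x}` with `u ∈ U`. Then `c(G) ≤ q + 2 ⌊√n⌋`. -/
def GroupActions.{u, v} : Prop :=
  ∀ (V : Type u) (A : Type v) [Fintype V] [Group A] [Finite A] [MulAction A V]
    (G F : SimpleGraph V), G.Connected → F ≤ G →
    (∀ (a : A) (x y : V), G.Adj x y → G.Adj (a • x) (a • y)) →
    (∀ (a : A) (x y : V), F.Adj x y → F.Adj (a • x) (a • y)) →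
    ∀ q : ℕ, (∀ v, copNumber (F.induce {z | F.Reachable v z}) ≤ q) →
    -- (1a)
    (∀ (C : Finset V) (T : Finset A), (∀ x y, G.Adj x y → ¬ F.Adj x y →
        (∀ c ∈ C, ¬ (c = y ∨ G.Adj c y)) → ∃ a ∈ T, x = a • y ∨ F.Adj x (a • y)) →
      copNumber G ≤ C.card + (q + T.card)) ∧
    -- (1b)
    ((∀ x y : V, ∃ a : A, y = a • x) → ∀ κ : ℝ, 0 ≤ κ →
      (∀ x y, G.Adj x y → ¬ F.Adj x y →
        ∃ a : A, (x = a • y ∨ F.Adj x (a • y)) ∧ (numConj a : ℝ) ≤ κ) →
      (copNumber G : ℝ) ≤ q +
        √(κ * Fintype.card V * (1 + Real.log (Fintype.card V)))) ∧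
    -- (1c)
    ((∀ (a : A) (x : V), a • x = x → a = 1) → ∀ U : Set A, (∀ u ∈ U, ∀ a, a * u * a⁻¹ ∈ U) →
      (∀ u ∈ U, ∀ x : V, x = u • x ∨ G.Adj x (u • x)) →
      (∀ x y, G.Adj x y → ¬ F.Adj x y → ∃ u ∈ U, y = u • x ∨ x = u • y) →
      copNumber G ≤ q + 2 * Nat.sqrt (Fintype.card V))

/-- Part (3). Let `π` be a homomorphism from `SL(d, F)`, `d ≥ 2`, `F` a finite field, onto a finite group
`Q`, whose kernel is in the centre of `SL(d, F)`.
(3a) Let `f` be a homomorphism from a group `Γ` of order `n` onto `Q` and `S` a set of generators of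
`Γ`. If `d ≤ |F|` then `c(Cay(Γ, S)) ≤ |ker f| + n √(d (1 + log n) / (|F| + 1 - d))`.
(3b) If `S` is a set of generators of `Q` and `n = |Q|` then
`c(Cay(Q, S)) ≤ 3 d n ^ (1 - 1 / (2 (d ^ 2 - 1))) √(1 + log n)`. -/
def SpecialLinearGroups.{w, x, y} : Prop :=
  ∀ (F : Type y) [Field F] [Fintype F] (Q : Type x) [Group Q] [Fintype Q] (d : ℕ), 2 ≤ d →
    ∀ π : Matrix.SpecialLinearGroup (Fin d) F →* Q, Function.Surjective π →
    π.ker ≤ Subgroup.center (Matrix.SpecialLinearGroup (Fin d) F) →
    -- (3a)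
    (∀ (Γ : Type w) [Group Γ] [Fintype Γ] (f : Γ →* Q), Function.Surjective f →
      ∀ S : Set Γ, (cayley S).Connected → d ≤ Fintype.card F →
        (copNumber (cayley S) : ℝ) ≤ Nat.card f.ker + Fintype.card Γ *
          √(d * (1 + Real.log (Fintype.card Γ)) / (Fintype.card F + 1 - d))) ∧
    -- (3b)
    ∀ S : Set Q, (cayley S).Connected →
      (copNumber (cayley S) : ℝ) ≤ 3 * d *
        (Fintype.card Q : ℝ) ^ (1 - 1 / (2 * ((d : ℝ) ^ 2 - 1))) *
        √(1 + Real.log (Fintype.card Q))

/-- Part (4). Let `σ` be an involution of the ring of the `d × d` matrices over a finite field `F`,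
`d ≥ 3`, and `q` the number of the scalars fixed by `σ`. Let `ρ` be a faithful representation of the
group `H` by isometries `x` (that is `x σ(x) = 1`) such that there are at most `r |H|` isometries, or
at most `r q |H|` if `σ` does not fix all scalars. Let `π` be a homomorphism from `H` onto a
noncommutative finite group `Q`.
(4a) Let `f` be a homomorphism from a group `Γ` of order `n` onto `Q` and `S` a set of generators of
`Γ`. If `d < q` then `c(Cay(Γ, S)) ≤ |ker f| + n √(r |ker π| (1 + log n) / (q - d))`.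
(4b) If `S` is a set of generators of `Q`, `n = |Q|` and `r ≥ 1` then
`c(Cay(Q, S)) ≤ 3 d √(r |ker π|) n ^ (1 - 1 / (4 d ^ 2)) √(1 + log n)`. -/
def ClassicalGroups.{w, x, y} : Prop :=
  ∀ (F : Type y) [Field F] [Fintype F] (Q : Type x) [Group Q] [Fintype Q] (d : ℕ), 3 ≤ d →
    ∀ σ : Matrix (Fin d) (Fin d) F → Matrix (Fin d) (Fin d) F, IsInvolution σ →
    ∀ (H : Type x) [Group H] (ρ : H →* Matrix (Fin d) (Fin d) F) (r : ℝ), 0 < r →
    IsometryGroup σ ρ r → ∀ π : H →* Q, Function.Surjective π → (∃ a b : Q, a * b ≠ b * a) →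
    -- (4a)
    (∀ (Γ : Type w) [Group Γ] [Fintype Γ] (f : Γ →* Q), Function.Surjective f →
      ∀ S : Set Γ, (cayley S).Connected → d < numFixed σ →
        (copNumber (cayley S) : ℝ) ≤ Nat.card f.ker + Fintype.card Γ *
          √(r * Nat.card π.ker * (1 + Real.log (Fintype.card Γ)) / (numFixed σ - d))) ∧
    -- (4b)
    ∀ S : Set Q, (cayley S).Connected → 1 ≤ r →
      (copNumber (cayley S) : ℝ) ≤ 3 * d * √(r * Nat.card π.ker) *
        (Fintype.card Q : ℝ) ^ (1 - 1 / (4 * (d : ℝ) ^ 2)) *
        √(1 + Real.log (Fintype.card Q))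

/-- Part (5). For all `d`, `k`, `m`, `B` there is `δ > 0` such that for every homomorphism `f` from a
finite group `Γ` of order `n` onto a direct product `P` of (arbitrarily many) groups which satisfy
`Factor d k m B` and for every set `S` of generators of `Γ`
`c(Cay(Γ, S)) ≤ |ker f| + n √((1 + log n) / |P| ^ δ)`.
So `c(Cay(Γ, S)) ≤ 1 + n ^ (1 - δ / 2) √(1 + log n)` if `Γ` is such a product. -/
def ProductGroups.{w, x, y, z} : Prop :=
  ∀ (d k m : ℕ) (B : ℝ), ∃ δ : ℝ, 0 < δ ∧
    ∀ (Γ : Type w) [Group Γ] [Fintype Γ] (I : Type z) [Finite I] (P : I → Type x)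
      [∀ i, Group (P i)] [∀ i, Finite (P i)], (∀ i, Factor.{x, y} d k m B (P i)) →
      ∀ f : Γ →* ∀ i, P i, Function.Surjective f → ∀ S : Set Γ, (cayley S).Connected →
        (copNumber (cayley S) : ℝ) ≤ Nat.card f.ker + Fintype.card Γ *
          √((1 + Real.log (Fintype.card Γ)) / (Nat.card (∀ i, P i) : ℝ) ^ δ)

/-- Part (6). Let `Γ` be a finite group.
(6a) Let `S` be a set of generators of `Γ`, `f` a homomorphism from `Γ` onto `Q` and `f(S) = T ∪ U`
where `U` is closed under conjugation in `Q`. Then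
`c(Cay(Γ, S)) ≤ |ker f| (c(Cay(⟨T⟩, T)) + 2 ⌊√|Q|⌋)`. In particular (`f` the identity)
`c(Cay(Γ, T ∪ U)) ≤ c(Cay(⟨T⟩, T)) + 2 ⌊√|Γ|⌋` if `U` is closed under conjugation in `Γ`.
(6b) Let `S 0`, ..., `S k` be sets such that `S i = S (i + 1) ∪ U` for a set `U` which is closed under
conjugation in `⟨S i⟩`, and `⟨S (i + 1)⟩ ≠ ⟨S i⟩`, for `i < k`. Let `n = |⟨S 0⟩|`. Then
`c(Cay(⟨S 0⟩, S 0)) ≤ c(Cay(⟨S k⟩, S k)) + 7 √n`; this is at most `8 √n` if `S k` is empty. -/
def InvariantGenerators.{w, x} : Prop :=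
  ∀ (Γ : Type w) [Group Γ] [Fintype Γ],
    -- (6a)
    (∀ S : Set Γ, (cayley S).Connected → ∀ (Q : Type x) [Group Q] [Fintype Q] (f : Γ →* Q),
      Function.Surjective f → ∀ T U : Set Q, f '' S = T ∪ U →
      (∀ u ∈ U, ∀ g, g * u * g⁻¹ ∈ U) →
      copNumber (cayley S) ≤
        Nat.card f.ker * (copNumber (Cay T) + 2 * Nat.sqrt (Fintype.card Q))) ∧
    -- (6b)
    ∀ (k : ℕ) (S : ℕ → Set Γ),
      (∀ i < k, Subgroup.closure (S (i + 1)) ≠ Subgroup.closure (S i) ∧
        ∃ U, S i = S (i + 1) ∪ U ∧ ∀ u ∈ U, ∀ g ∈ Subgroup.closure (S i), g * u * g⁻¹ ∈ U) →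
      (copNumber (Cay (S 0)) : ℝ) ≤ copNumber (Cay (S k)) +
        7 * √(Nat.card (Subgroup.closure (S 0)) : ℝ) ∧
      (S k = ∅ → (copNumber (Cay (S 0)) : ℝ) ≤ 8 * √(Nat.card (Subgroup.closure (S 0)) : ℝ))

/-- (1) Groups of automorphisms of arbitrary graphs, see `GroupActions`.
(2) Let `Γ` be a finite group of order `n` and `S` a set of generators (so that the Cayley graph is
connected).
(2a) Let `T ⊆ S` and `K ⊆ Γ` be such that for every `s ∈ S` outside `T` there is an element `t` of
`T ∪ T⁻¹ ∪ {1}` such that all conjugates of `s t⁻¹` and of its inverse are in `K`. Then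
`c(Cay(Γ, S)) ≤ c(Cay(⟨T⟩, T)) + |K|`.
(2b) If instead `s t⁻¹` has at most `κ` conjugates then
`c(Cay(Γ, S)) ≤ c(Cay(⟨T⟩, T)) + √(κ n (1 + log n))`. If every `s ∈ S` has at most `κ` conjugates then
`c(Cay(Γ, S)) ≤ 1 + √(κ n (1 + log n))` and `c(Cay(Γ, S)) ≤ 1 + 2 |S| κ`.
(2c) Let `f` be a homomorphism from `Γ` onto a finite group `Q`, let `z > 0`, and let `f(s)` commute
with at least `z` elements of `Q` for every `s ∈ S`. Then
`c(Cay(Γ, S)) ≤ |ker f| + n √((1 + log n) / z)`.
(2d) Let `N ≤ M` be subgroups of `Γ` such that all commutators of elements of `M` and `Γ` are in `N`.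
Then `c(Cay(Γ, S)) ≤ 6 n √(|N| / |M|)`.
(2e) If `Γ` is nilpotent of class at most `k`, `k ≥ 1`, then `c(Cay(Γ, S)) ≤ 6 n ^ (1 - 1 / (2 k))`
and `c(Cay(Γ, S)) ≤ 1 + 2 |S| n ^ (1 - 1 / k)`.
(2f) Let `Z` be a central subgroup of `Γ`. If `S` meets `τ` cosets of `Z` and every `s ∈ S` has at most
`κ` conjugates then `c(Cay(Γ, S)) ≤ 1 + 2 √n + 2 τ κ`. If `|Γ : Z| ^ 4 ≤ n` then
`c(Cay(Γ, S)) ≤ 5 √n`.
(3) Special linear groups, see `SpecialLinearGroups`.
(4) Other classical groups, see `ClassicalGroups`.
(5) Direct products of arbitrarily many groups, see `ProductGroups`.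
(6) Sets of generators which are closed under conjugation, see `InvariantGenerators`. -/
theorem result.{u, v, w, x, y, z} :
    -- (1)
    GroupActions.{u, v} ∧
    -- (2)
    (∀ (Γ : Type w) [Group Γ] [Fintype Γ] (S : Set Γ), (cayley S).Connected →
      -- (2a)
      (∀ T ⊆ S, ∀ K : Set Γ, (∀ s ∈ S, s ∉ T → ∃ t, (t = 1 ∨ t ∈ T ∨ t⁻¹ ∈ T) ∧
          ∀ g, g * (s * t⁻¹) * g⁻¹ ∈ K ∧ g * (s * t⁻¹)⁻¹ * g⁻¹ ∈ K) →
        copNumber (cayley S) ≤ copNumber (Cay T) + K.ncard) ∧
      -- (2b)
      (∀ κ : ℝ, 0 ≤ κ →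
        (∀ T ⊆ S, (∀ s ∈ S, s ∉ T → ∃ t, (t = 1 ∨ t ∈ T ∨ t⁻¹ ∈ T) ∧
            (numConj (s * t⁻¹) : ℝ) ≤ κ) →
          (copNumber (cayley S) : ℝ) ≤ copNumber (Cay T) +
            √(κ * Fintype.card Γ * (1 + Real.log (Fintype.card Γ)))) ∧
        ((∀ s ∈ S, (numConj s : ℝ) ≤ κ) →
          (copNumber (cayley S) : ℝ) ≤
            1 + √(κ * Fintype.card Γ * (1 + Real.log (Fintype.card Γ))) ∧
          (copNumber (cayley S) : ℝ) ≤ 1 + 2 * S.ncard * κ)) ∧
      -- (2c)
      (∀ (Q : Type x) [Group Q] [Fintype Q] (f : Γ →* Q), Function.Surjective f →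
        ∀ z : ℝ, 0 < z → (∀ s ∈ S, z ≤ ({c | c * f s = f s * c} : Set Q).ncard) →
          (copNumber (cayley S) : ℝ) ≤ Nat.card f.ker +
            Fintype.card Γ * √((1 + Real.log (Fintype.card Γ)) / z)) ∧
      -- (2d)
      (∀ M N : Subgroup Γ, N ≤ M → (∀ x ∈ M, ∀ g, x * g * x⁻¹ * g⁻¹ ∈ N) →
        (copNumber (cayley S) : ℝ) ≤
          6 * (Fintype.card Γ * √((Nat.card N : ℝ) / Nat.card M))) ∧
      -- (2e)
      (∀ k : ℕ, 1 ≤ k → Group.IsNilpotent Γ → Group.nilpotencyClass Γ ≤ k →
        (copNumber (cayley S) : ℝ) ≤ 6 * (Fintype.card Γ : ℝ) ^ (1 - 1 / (2 * (k : ℝ))) ∧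
        (copNumber (cayley S) : ℝ) ≤ 1 + 2 * S.ncard * (Fintype.card Γ : ℝ) ^ (1 - 1 / (k : ℝ))) ∧
      -- (2f)
      ∀ Z : Subgroup Γ, (∀ g, ∀ a ∈ Z, g * a = a * g) →
        (∀ κ : ℝ, 0 ≤ κ → (∀ s ∈ S, (numConj s : ℝ) ≤ κ) →
          (copNumber (cayley S) : ℝ) ≤ 1 + 2 * √(Fintype.card Γ : ℝ) +
            2 * ((fun s : Γ => (s : Γ ⧸ Z)) '' S).ncard * κ) ∧
        (Z.index ^ 4 ≤ Fintype.card Γ →
          (copNumber (cayley S) : ℝ) ≤ 5 * √(Fintype.card Γ : ℝ))) ∧
    -- (3)
    SpecialLinearGroups.{w, x, y} ∧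
    -- (4)
    ClassicalGroups.{w, x, y} ∧
    -- (5)
    ProductGroups.{w, x, y, z} ∧
    -- (6)
    InvariantGenerators.{w, x} := by
  refine ⟨?_, ?_, ?_, ?_, ?_, ?_⟩
  · intro V A _ _ _ _ G F hG hFG hGi hFi q hq
    refine ⟨fun C T hT => Pool.Agent.D0H27.Lab.label_static hG hFG hGi hFi q hq C T hT,
      fun htr κ h0 hκ => ?_, fun hfree U hUc hUs hE =>
        Pool.Agent.D0H27.Lab.free_bound hG hFG hGi hFi q hq hfree U hUc hUs hE⟩
    let _ : Fintype A := Fintype.ofFinite A
    refine Pool.Agent.D0H27.Lab.trans_kappa hG hFG hGi hFi q hq htr κ h0 ?_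
    intro x y h h'
    obtain ⟨a, ha, hc⟩ := hκ x y h h'
    refine ⟨a, ha, ?_⟩
    rw [← numConj_eq]
    exact hc
  · intro Γ _ _ S hS
    have hS' : (Pool.Agent.D0H27.Ret.cayley S).Connected := hS
    refine ⟨fun T hTS K hK => Pool.Agent.D0H27.Lab.cay_set S T hS' hTS K hK,
      fun κ h0 => ⟨fun T hTS hκ => ?_, fun hκ => ?_⟩, ?_, ?_, ?_, ?_⟩
    · refine Pool.Agent.D0H27.Lab.cay_kappa S T hS' hTS κ ?_ h0
      intro s hs hsT
      obtain ⟨t, ht, hc⟩ := hκ s hs hsT
      refine ⟨t, ht, ?_⟩
      rw [← numConj_eq]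
      exact hc
    · have h1 := Pool.Agent.D0H27.Lab.cay_kappa S ∅ hS' (Set.empty_subset S) κ (by
        intro s hs _
        refine ⟨1, Or.inl rfl, ?_⟩
        rw [inv_one, mul_one, ← numConj_eq]
        exact hκ s hs) h0
      have h2 : (copNumber (Pool.Agent.D0H27.Abel.Cay (∅ : Set Γ)) : ℝ) ≤ 1 := by
        exact_mod_cast Pool.Agent.D0H27.Abel.cay_empty (Γ := Γ)
      have h3 : (copNumber (cayley S) : ℝ) =
          copNumber (Pool.Agent.D0H27.Ret.cayley S) := rfl
      refine ⟨?_, Pool.Agent.D0H27.Lab.few_main S hS' κ fun s hs => ?_⟩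
      · rw [h3]
        linarith
      · rw [← numConj_eq]
        exact hκ s hs
    · intro Q _ _ f hf z hz h
      refine Pool.Agent.D0H27.Lab.commute_hom f hf S hS' z hz ?_
      intro s hs
      have hfin : ({c | c * f s = f s * c} : Set Q).Finite := Set.toFinite _
      refine ⟨hfin.toFinset, ?_, ?_⟩
      · intro c hc
        rw [Set.Finite.mem_toFinset] at hc
        exact hc
      · rw [← Set.ncard_eq_toFinset_card _ hfin]
        exact h s hs
    · intro M N hNM hMN
      exact Pool.Agent.D0H27.Lab.section_main S hS' M N hNM hMN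
    · intro k hk hnil hcl
      have := hnil
      have h := Subgroup.lowerCentralSeries_eq_bot_iff_nilpotencyClass_le.2 hcl
      exact ⟨Pool.Agent.D0H27.Lab.nil_main S hS' k hk h,
        Pool.Agent.D0H27.Lab.few_nil S hS' k hk h⟩
    · intro Z hZ
      refine ⟨fun κ h0 hκ => ?_, fun h => ?_⟩
      · refine Pool.Agent.D0H27.Lab.central_few S hS' Z hZ κ h0 fun s hs => ?_
        rw [← numConj_eq]
        exact hκ s hs
      · exact Pool.Agent.D0H27.Lab.central_quarter S hS' Z hZ h
  · intro F _ _ Q _ _ d hd π hπ hker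
    classical
    refine ⟨fun Γ _ _ f hf S hS hq => ?_, fun S hS => ?_⟩
    · exact Pool.Agent.D0H27.Lab.sl_hom hd hq π hπ hker f hf S hS
    · exact Pool.Agent.D0H27.Lab.sl_power hd π hπ hker S hS
  · intro F _ _ Q _ _ d hd σ hσ H _ ρ r hr hH π hπ hQ
    classical
    obtain ⟨hρ, hH1, hH2⟩ := hH
    rw [isom_eq, numFixed_eq] at hH2
    refine ⟨fun Γ _ _ f hf S hS hq => ?_, fun S hS hr1 => ?_⟩
    · have hq' : d < (Pool.Agent.D0H27.Lab.fixed σ).card := by rwa [← numFixed_eq]
      rw [numFixed_eq]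
      exact Pool.Agent.D0H27.Lab.rep_hom ρ ⟨hσ.1, hσ.2.1, hσ.2.2⟩ hd hρ hH1 π hπ hQ r hr hH2 hq' f
        hf S hS
    · exact Pool.Agent.D0H27.Lab.rep_power ρ ⟨hσ.1, hσ.2.1, hσ.2.2⟩ hd hρ hH1 π hπ hQ r hr1 hH2 S
        hS
  · intro d k m B
    have hm2 : (2 : ℝ) ≤ max (m : ℝ) 2 := le_max_right _ _
    have hlm : 0 < Real.log (max (m : ℝ) 2) := Real.log_pos (by linarith)
    have hl2 : 0 < Real.log 2 := Real.log_pos (by norm_num)
    have hk : (0 : ℝ) < ((max k 1 : ℕ) : ℝ) := by
      exact_mod_cast lt_of_lt_of_le one_pos (le_max_right k 1)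
    refine ⟨min (Real.log 2 / Real.log (max (m : ℝ) 2)) (min (1 / ((max k 1 : ℕ) : ℝ))
      (Pool.Agent.D0H27.Lab.expo d B)), ?_, ?_⟩
    · exact lt_min (by positivity) (lt_min (by positivity) (Pool.Agent.D0H27.Lab.expo_pos d B))
    intro Γ _ _ I _ P _ _ hP f hf S hS
    classical
    let _ : Fintype I := Fintype.ofFinite I
    refine Pool.Agent.D0H27.Lab.LC.cop _ (Pool.Agent.D0H27.Lab.LC.pi P _ fun i => ?_) f hf S hS
    rcases hP i with h | ⟨h1, h2⟩ | ⟨M, N, hNM, hMN, hc⟩ | ⟨e, F, _, _, π, he, hed, hπ, hker⟩ |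
      ⟨e, F, _, _, σ, H, _, ρ, r, π, he, hed, hσ, hr, ⟨hρ, hH1, hH2⟩, hπ, hB, hQ⟩
    · refine (Pool.Agent.D0H27.Lab.LC.small (max (m : ℝ) 2) hm2 ?_).mono (min_le_left _ _)
      exact le_trans (by exact_mod_cast h) (le_max_left _ _)
    · exact (Pool.Agent.D0H27.Lab.LC.nil (max k 1) (le_max_right _ _) h1
        (h2.trans (le_max_left _ _))).mono ((min_le_right _ _).trans (min_le_left _ _))
    · exact (Pool.Agent.D0H27.Lab.LC.sect k M N hNM hMN hc).mono
        ((min_le_right _ _).trans (min_le_left _ _))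
    · exact (Pool.Agent.D0H27.Lab.LC.sl he hed B π hπ hker).mono
        ((min_le_right _ _).trans (min_le_right _ _))
    · rw [isom_eq, numFixed_eq] at hH2
      exact (Pool.Agent.D0H27.Lab.rep_LC ρ ⟨hσ.1, hσ.2.1, hσ.2.2⟩ he d hed B hρ hH1 π hπ hQ r hr
        hH2 hB).mono ((min_le_right _ _).trans (min_le_right _ _))
  · intro Γ _ _
    refine ⟨fun S hS Q _ _ f hf T U hTU hU => ?_, fun k S h => ?_⟩
    · exact Pool.Agent.D0H27.Lab.conj_hom f hf S hS T U hTU hU
    · have h1 : (copNumber (Cay (S 0)) : ℝ) ≤ copNumber (Cay (S k)) +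
          7 * √(Nat.card (Subgroup.closure (S 0)) : ℝ) :=
        Pool.Agent.D0H27.Lab.stp_chain k S fun i hi => h i hi
      refine ⟨h1, fun hk => ?_⟩
      have h2 : (copNumber (Cay (S k)) : ℝ) ≤ 1 := by
        rw [hk]
        exact_mod_cast Pool.Agent.D0H27.Abel.cay_empty (Γ := Γ)
      have h3 : 1 ≤ √(Nat.card (Subgroup.closure (S 0)) : ℝ) := by
        apply Real.one_le_sqrt.2
        exact_mod_cast Nat.card_pos
      linarith

end Pool.Agent.Results.MP_964892_co.LargeCentralizers
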