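import Pool.Agent.D0H59.MeySym.Main

set_option autoImplicit false
open N6ef48c04
open Pool.Agent.D0H59.MeySym

namespace Pool.Agent.Results.MP_964892_co.MutuallySafeTokens

/-!
# A symmetric form of Meyniel's conjecture

Put `m` tokens on the vertices of a connected graph. A token is safe if, as a robber who moves first
in every round, he is never caught by the other `m - 1` tokens, who are the cops. Meyniel's
conjecture holds if and only if there is a constant `K` such that more than `K √n` tokens on a
connected graph with `n` vertices are never all safe. Here all the players have the same role, the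
starting places are given, and no quantifier over the starting places of the cops is left.

Proof idea. (Territory method.) Suppose that at most `f |X|` tokens can be mutually safe for robbers
who may not leave `X`. Of `2 f |X|` tokens drawn at random from `X` at most one half is safe on the
average; hence for some choice of the others, the last one is safe for at most one half of his
starting places in `X`. So `2 f |X|` further cops confine the robber to a set `X'` with
`|X'| ≤ |X| / 2`, and one goes on with `X'`. Conversely, the others walk to the component `Y` of the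
robber in his territory and play the game on `G[Y]`. A territory which is not the whole graph is
dealt with by induction: if the tokens are in components `Y_j` of `X` then `m ≤ c(G[Y_j])` for
all `j`, while `Y_j` contains at most `K √|Y_j|` of them.
-/

/-- (1) If `m` tokens on the connected graph `G` are mutually safe in the territory `X` then
`m ≤ c(G[Y])` for some connected induced subgraph with `Y ⊆ X`, around each of the tokens.
(2) If, for every `X`, at most `f |X|` tokens are mutually safe in `X`, where `f` is nondecreasing,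
then `c(G) ≤ 2 f(n) + 2 f(n / 2) + 2 f(n / 4) + ...` (with `⌊log₂ n⌋ + 1` summands).
(3) Let `ψ ≥ 1` be nondecreasing. The bound `c(G) ≤ C √n ψ(n)` for all connected graphs, the bound
`m ≤ K √n ψ(n)` for all mutually safe tokens on connected graphs, and the bound `m ≤ K √|X| ψ(|X|)`
for all mutually safe tokens in territories are equivalent (with different constants).
(4) Meyniel's conjecture holds if and only if there is a constant `K` such that for all connected
graphs on `n` vertices and all `m > K √n` tokens, one of them is caught by the others. -/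
theorem result :
    (∀ (V : Type) [Fintype V] (G : SimpleGraph V), G.Connected →
      ∀ (X : Finset V) (m : ℕ) (t : Fin m → V), MutuallySafe G X t → ∀ j,
        ∃ Y ⊆ X, t j ∈ Y ∧ (G.induce (Y : Set V)).Connected ∧
          m ≤ copNumber (G.induce (Y : Set V))) ∧
    (∀ (V : Type) [Fintype V] (G : SimpleGraph V), G.Connected → ∀ f : ℕ → ℕ, Monotone f →
      (∀ (X : Finset V) (m : ℕ) (t : Fin m → V), MutuallySafe G X t → m ≤ f X.card) →
      copNumber G ≤ ∑ i ∈ Finset.range (Nat.log 2 (Fintype.card V) + 1),
        2 * f (Fintype.card V / 2 ^ i)) ∧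
    (∀ ψ : ℕ → ℝ, Monotone ψ → (∀ n, 1 ≤ ψ n) → List.TFAE [
      ∃ C : ℝ, ∀ (V : Type) [Fintype V] (G : SimpleGraph V), G.Connected →
        (copNumber G : ℝ) ≤ C * √(Fintype.card V : ℝ) * ψ (Fintype.card V),
      ∃ K : ℝ, ∀ (V : Type) [Fintype V] (G : SimpleGraph V), G.Connected →
        ∀ (m : ℕ) (t : Fin m → V), MutuallySafe G Finset.univ t →
          (m : ℝ) ≤ K * √(Fintype.card V : ℝ) * ψ (Fintype.card V),
      ∃ K : ℝ, ∀ (V : Type) [Fintype V] (G : SimpleGraph V), G.Connected →
        ∀ (X : Finset V) (m : ℕ) (t : Fin m → V), MutuallySafe G X t →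
          (m : ℝ) ≤ K * √(X.card : ℝ) * ψ X.card]) ∧
    ((∃ C : ℝ, 0 < C ∧ ∀ (V : Type) [Fintype V] (G : SimpleGraph V), G.Connected →
        (copNumber G : ℝ) ≤ C * √(Fintype.card V : ℝ)) ↔
      ∃ K : ℝ, ∀ (V : Type) [Fintype V] (G : SimpleGraph V), G.Connected →
        ∀ (m : ℕ) (t : Fin m → V), K * √(Fintype.card V : ℝ) < m →
          ∃ j, ∃ r, Lost G Finset.univ r (fun i : {i // i ≠ j} => t i) (t j)) := by
  have h3 : ∀ ψ : ℕ → ℝ, Monotone ψ → (∀ n, 1 ≤ ψ n) → List.TFAE [
      ∃ C : ℝ, ∀ (V : Type) [Fintype V] (G : SimpleGraph V), G.Connected →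
        (copNumber G : ℝ) ≤ C * √(Fintype.card V : ℝ) * ψ (Fintype.card V),
      ∃ K : ℝ, ∀ (V : Type) [Fintype V] (G : SimpleGraph V), G.Connected →
        ∀ (m : ℕ) (t : Fin m → V), MutuallySafe G Finset.univ t →
          (m : ℝ) ≤ K * √(Fintype.card V : ℝ) * ψ (Fintype.card V),
      ∃ K : ℝ, ∀ (V : Type) [Fintype V] (G : SimpleGraph V), G.Connected →
        ∀ (X : Finset V) (m : ℕ) (t : Fin m → V), MutuallySafe G X t →
          (m : ℝ) ≤ K * √(X.card : ℝ) * ψ X.card] := by
    intro ψ hψ hψ1
    tfae_have 1 → 3 := by
      rintro ⟨C, hC⟩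
      refine ⟨max C 0, fun V _ G hG X m t ht => ?_⟩
      refine safe_of_cop ψ hψ hψ1 (max C 0) (le_max_right _ _) (fun W _ H hH => ?_) V G hG X m t ht
      refine (hC W H hH).trans ?_
      have h1 : 0 ≤ ψ (Fintype.card W) := by linarith [hψ1 (Fintype.card W)]
      exact mul_le_mul_of_nonneg_right
        (mul_le_mul_of_nonneg_right (le_max_left _ _) (Real.sqrt_nonneg _)) h1
    tfae_have 3 → 2 := by
      rintro ⟨K, hK⟩
      refine ⟨K, fun V _ G hG m t ht => ?_⟩
      have h1 := hK V G hG Finset.univ m t ht
      rwa [Finset.card_univ] at h1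
    tfae_have 2 → 1 := by
      rintro ⟨K, hK⟩
      refine ⟨49 * max K 1, fun V _ G hG => ?_⟩
      refine cop_of_safe ψ hψ hψ1 (max K 1) (le_max_right _ _) (fun W _ H hH m t ht => ?_)
        (Fintype.card V) V G hG le_rfl
      refine (hK W H hH m t ht).trans ?_
      have h1 : 0 ≤ ψ (Fintype.card W) := by linarith [hψ1 (Fintype.card W)]
      exact mul_le_mul_of_nonneg_right
        (mul_le_mul_of_nonneg_right (le_max_left _ _) (Real.sqrt_nonneg _)) h1
    tfae_finish
  refine ⟨fun V _ G hG X m t ht j => ?_, fun V _ G hG f hmono hf =>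
    copNumber_le_sum G hG f hmono hf, h3, ?_⟩
  · exact ⟨comp G X (t j), comp_sub G X _, self_comp G (ht j).1, comp_connected G (ht j).1,
      card_le_of_mutuallySafe G hG X m t ht j⟩
  · have h4 := (h3 (fun _ => 1) (fun _ _ _ => le_rfl) (fun _ => le_rfl)).out 0 1
    simp only [mul_one] at h4
    have h5 : ∀ (V : Type) [Fintype V] (G : SimpleGraph V) (m : ℕ) (t : Fin m → V),
        ¬ MutuallySafe G Finset.univ t ↔
          ∃ j, ∃ r, Lost G Finset.univ r (fun i : {i // i ≠ j} => t i) (t j) := by
      intro V _ G m t
      simp only [MutuallySafe, Safe, Finset.mem_univ, true_and]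
      push Not
      rfl
    constructor
    · rintro ⟨C, -, hC⟩
      obtain ⟨K, hK⟩ := h4.1 ⟨C, hC⟩
      refine ⟨K, fun V _ G hG m t hm => (h5 V G m t).1 fun hs => ?_⟩
      exact absurd (hK V G hG m t hs) (not_le.2 hm)
    · rintro ⟨K, hK⟩
      obtain ⟨C, hC⟩ := h4.2 ⟨K, fun V _ G hG m t hs => by
        by_contra hcon
        exact (h5 V G m t).2 (hK V G hG m t (not_le.1 hcon)) hs⟩
      refine ⟨max C 1, lt_of_lt_of_le one_pos (le_max_right _ _), fun V _ G hG => ?_⟩
      exact (hC V G hG).trans
        (mul_le_mul_of_nonneg_right (le_max_left _ _) (Real.sqrt_nonneg _))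

end Pool.Agent.Results.MP_964892_co.MutuallySafeTokens
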