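import Pool.Agent.D0H27.Ret.Apps

set_option autoImplicit false
open N6ef48c04

namespace Pool.Agent.Results.MP_964892_co.RetractCovers

/-!
# Meyniel's bound for graphs which are covered by retracts, for bundles with sections, and for
# Cayley graphs of semidirect products

A cop can imitate the robber through a lazy endomorphism `f` of the graph (adjacent vertices have
equal or adjacent images): once he is at the image of the vertex of the robber he stays there for
ever, and he threatens all the vertices `z` guarded by `f`; all the fixed vertices of `f` are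
guarded, so a retraction guards the whole retract, however large it is. Such a guard costs more
than one cop only during the short time in which he is put into place: some `q` cops, enough to win
on the image of `f`, play there against the image of the robber. They are used again and again,
so `t` endomorphisms cost `t + q` cops. The entropy method of the starting files deals with the
vertices which remain.

This gives Meyniel's bound, for instance, for
* all vertex-transitive graphs with a retract of between `√n log (log n + 1)` and
  `n / (log n + 1) ^ 2` vertices,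
* all connected graphs between the Cartesian product and the strong product of a complete graph
  with `t` vertices and any graph `H`, `(log n + 1) ^ 2 ≤ t ≤ C √n`, and more generally all graphs
  with a lazy homomorphism to a smaller graph `H` that has `t` sections covering almost all vertices,
* the Cayley graphs of all semidirect products `N ⋊ Q` with `(log n + 1) ^ 2 ≤ |N| ≤ C √n`, for the
  connection sets `S ⊆ N ∪ Q`, and more generally for the `S` whose projection to `Q` is contained in
  `S ∪ S⁻¹ ∪ {1}`. Nothing is assumed about the groups `N` and `Q` or the action. Examples: the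
  affine groups over finite fields, with generating sets which consist of translations and linear
  maps; the unitriangular `d × d` matrices over a finite field, `d ≥ 4`, and any generating set of
  elementary matrices (`N` consists of the matrices which differ from the unit matrix only in the
  first row).
-/

/-- A lazy endomorphism: if `x`, `y` are equal or adjacent then so are `f x`, `f y`. -/
def Lazy {V : Type*} (G : SimpleGraph V) (f : V → V) : Prop :=
  ∀ x y, Step G x y → Step G (f x) (f y)

/-- `f` guards `z`: for every `y` equal or adjacent to `z`, also `f y` is equal or adjacent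
to `z`. -/
def Guards {V : Type*} (G : SimpleGraph V) (f : V → V) (z : V) : Prop :=
  ∀ y, Step G y z → Step G (f y) z

/-- The undirected Cayley graph of `Γ` with connection set `S`. -/
def cayley {Γ : Type*} [Group Γ] (S : Set Γ) : SimpleGraph Γ where
  Adj x y := x ≠ y ∧ (x⁻¹ * y ∈ S ∨ y⁻¹ * x ∈ S)
  symm := ⟨fun _ _ h => ⟨h.1.symm, h.2.symm⟩⟩
  loopless := ⟨fun _ h => h.1 rfl⟩

theorem cayley_eq {Γ : Type*} [Group Γ] (S : Set Γ) :
    cayley S = Pool.Agent.D0H27.Ret.cayley S := rfl

/-- Let `G` be a connected graph on `n` vertices.
(0) A lazy endomorphism guards its fixed vertices.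
(1) Let `f j`, `j ∈ J`, be `|J|` lazy endomorphisms of `G` whose images induce subgraphs of cop
number at most `q`, and let `u` be the number of vertices which are not guarded by any of them.
Then `c(G) ≤ |J| + q + 81 √u (log n + 1)`. If `|J| ≤ C √n`, `u (log n + 1) ^ 2 ≤ n` and
`|f j (V)| (log n + 1) ^ 2 ≤ n` for all `j`, then `c(G) ≤ (C + 162) √n`.
(2) Fractional covers. If instead every vertex outside a set `X` is guarded by at least a proportion
`ρ > 0` of the members of the family, then
`c(G) ≤ (2 / ρ) log (log n + 1) + 1 + q + 81 √n + 81 √|X| (log n + 1)`.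
(3) Let `G` be vertex-transitive, and let `f` be a lazy endomorphism which guards `w > 0` vertices.
Then `c(G) ≤ (2 n / w) log (log n + 1) + 1 + c(G[f(V)]) + 81 √n`, and `c(G) ≤ (2 / a + 163) √n` if
`w ≥ a √n log (log n + 1)` and `|f(V)| (log n + 1) ^ 2 ≤ n`.
(4) Let `π` be a lazy homomorphism from `G` to a graph `H`, and let the lazy homomorphisms
`σ j : H → G`, `j ∈ J`, be sections of `π`. Let `u` be the number of vertices which are not in the
image of any of them. Then `c(G) ≤ |J| + c(H) + 81 √u (log n + 1)`.
(5) Let `Γ` be a finite group with `n` elements and `f` an endomorphism of `Γ` with `f ∘ f = f`, so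
that `Γ` is the semidirect product of the kernel `N` and the image `Q` of `f`. Let `S` be a connection
set such that `f s ∈ S ∪ S⁻¹ ∪ {1}` for all `s ∈ S` (for instance `S ⊆ N ∪ Q`), and let the Cayley
graph of `Γ` be connected. Then `c ≤ |N| + c'`, where `c' ≤ 81 √|Q| (log |Q| + 1)` is the cop number
of the subgraph induced on `Q`; and `c ≤ (C + 81) √n` if `(log n + 1) ^ 2 ≤ |N| ≤ C √n`. -/
theorem result.{u, v, w} :
    (∀ (V : Type u) [Fintype V] (G : SimpleGraph V), G.Connected →
      -- (0)
      (∀ f : V → V, Lazy G f → ∀ z, f z = z → Guards G f z) ∧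
      -- (1)
      (∀ (J : Type v) [Fintype J] (f : J → V → V), (∀ j, Lazy G (f j)) →
        (∀ q : ℕ, (∀ j, copNumber (G.induce (Set.range (f j))) ≤ q) →
          (copNumber G : ℝ) ≤ Fintype.card J + q +
            81 * √(({z | ∀ j, ¬ Guards G (f j) z} : Set V).ncard : ℝ) *
              (Real.log (Fintype.card V) + 1)) ∧
        (∀ C : ℝ, (Fintype.card J : ℝ) ≤ C * √(Fintype.card V) →
          (({z | ∀ j, ¬ Guards G (f j) z} : Set V).ncard : ℝ) *
            (Real.log (Fintype.card V) + 1) ^ 2 ≤ Fintype.card V →
          (∀ j, ((Set.range (f j)).ncard : ℝ) * (Real.log (Fintype.card V) + 1) ^ 2 ≤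
            Fintype.card V) →
          (copNumber G : ℝ) ≤ (C + 162) * √(Fintype.card V))) ∧
      -- (2)
      (∀ (J : Type v) [Fintype J] [Nonempty J] (f : J → V → V), (∀ j, Lazy G (f j)) →
        ∀ q : ℕ, (∀ j, copNumber (G.induce (Set.range (f j))) ≤ q) →
        ∀ ρ : ℝ, 0 < ρ → ∀ X : Finset V,
          (∀ z, z ∉ X → ρ * Fintype.card J ≤ ({j | Guards G (f j) z} : Set J).ncard) →
          (copNumber G : ℝ) ≤ 2 / ρ * Real.log (Real.log (Fintype.card V) + 1) + 1 + q +
            81 * √(Fintype.card V) + 81 * √(X.card : ℝ) * (Real.log (Fintype.card V) + 1)) ∧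
      -- (3)
      ((∀ x y : V, ∃ φ : G ≃g G, φ x = y) → ∀ f : V → V, Lazy G f →
        ((∃ z, Guards G f z) →
          (copNumber G : ℝ) ≤ 2 * Fintype.card V / ({z | Guards G f z} : Set V).ncard *
              Real.log (Real.log (Fintype.card V) + 1) + 1 +
            copNumber (G.induce (Set.range f)) + 81 * √(Fintype.card V)) ∧
        (∀ a : ℝ, 0 < a →
          a * √(Fintype.card V) * Real.log (Real.log (Fintype.card V) + 1) ≤
            (({z | Guards G f z} : Set V).ncard : ℝ) →
          ((Set.range f).ncard : ℝ) * (Real.log (Fintype.card V) + 1) ^ 2 ≤ Fintype.card V →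
          (copNumber G : ℝ) ≤ (2 / a + 163) * √(Fintype.card V))) ∧
      -- (4)
      (∀ (B : Type v) [Fintype B] (H : SimpleGraph B) (π : V → B),
        (∀ x y, Step G x y → Step H (π x) (π y)) →
        ∀ (J : Type w) [Fintype J] (σ : J → B → V),
          (∀ j b b', Step H b b' → Step G (σ j b) (σ j b')) → (∀ j b, π (σ j b) = b) →
          (copNumber G : ℝ) ≤ Fintype.card J + copNumber H +
            81 * √(({z | ∀ j b, σ j b ≠ z} : Set V).ncard : ℝ) *
              (Real.log (Fintype.card V) + 1))) ∧
    -- (5)
    (∀ (Γ : Type u) [Group Γ] [Fintype Γ] (S : Set Γ), (cayley S).Connected →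
      ∀ f : Γ →* Γ, (∀ x, f (f x) = f x) → (∀ s ∈ S, f s = 1 ∨ f s ∈ S ∨ (f s)⁻¹ ∈ S) →
        (copNumber (cayley S) : ℝ) ≤ Nat.card f.ker +
          copNumber ((cayley S).induce (Set.range f)) ∧
        (copNumber ((cayley S).induce (Set.range f)) : ℝ) ≤
          81 * √(Nat.card f.range : ℝ) * (Real.log (Nat.card f.range) + 1) ∧
        (∀ C : ℝ, (Real.log (Fintype.card Γ) + 1) ^ 2 ≤ Nat.card f.ker →
          (Nat.card f.ker : ℝ) ≤ C * √(Fintype.card Γ) →
          (copNumber (cayley S) : ℝ) ≤ (C + 81) * √(Fintype.card Γ))) := by
  classical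
  refine ⟨fun V _ G hG => ⟨?_, ?_, ?_, ?_, ?_⟩, ?_⟩
  · intro f hf z hz
    exact Pool.Agent.D0H27.Ret.guarded_of_fixed G hf hz
  · intro J _ f hf
    refine ⟨fun q hq => ?_, fun C hJ hu hs => ?_⟩
    · exact Pool.Agent.D0H27.Ret.family_bound G hG f hf q hq
    · exact Pool.Agent.D0H27.Ret.family_meyniel G hG f hf C hJ hs hu
  · intro J _ _ f hf q hq ρ hρ X hX
    exact Pool.Agent.D0H27.Ret.fractional G hG f hf q hq ρ hρ X hX
  · intro htr f hf
    refine ⟨fun hz => ?_, fun a ha hw hs => ?_⟩
    · exact Pool.Agent.D0H27.Ret.transitive G hG htr f hf hz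
    · exact Pool.Agent.D0H27.Ret.transitive_meyniel G hG htr f hf a ha hw hs
  · intro B _ H π hπ J _ σ hσ hs
    exact Pool.Agent.D0H27.Ret.sections_bound G hG H π hπ σ hσ hs
  · intro Γ _ _ S hG f hff hS
    refine ⟨?_, ?_, fun C h1 h2 => ?_⟩
    · exact Pool.Agent.D0H27.Ret.cayley_bound S hG f hff hS
    · exact Pool.Agent.D0H27.Ret.cayley_bound' S hG f hff hS
    · exact Pool.Agent.D0H27.Ret.cayley_meyniel S hG f hff hS C h1 h2

end Pool.Agent.Results.MP_964892_co.RetractCovers
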